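import Pool.Agent.Q279.CB.Final

/-!
# Fibonacci and Lucas sums with central binomial coefficients modulo `p ^ 2`
-/

set_option autoImplicit false

namespace Pool.Agent.Results.MP_0a65fc_nt.FourCongruences

open Finset

/-- The Lucas numbers: `L 0 = 2`, `L 1 = 1`, `L (n + 2) = L (n + 1) + L n`. -/
def L : ℕ → ℤ
  | 0 => 2
  | 1 => 1
  | n + 2 => L (n + 1) + L n

/-- The Legendre symbol `(p / 5)`. -/
def ε (p : ℕ) : ℤ := jacobiSym p 5

/-- The Fibonacci quotient `F_{p-ε} / p`. -/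
def q (p : ℕ) : ℚ := (Nat.fib ((p : ℤ) - ε p).toNat : ℚ) / p

/-- `a ≡ b (mod p ^ 2)` for rational numbers: `a - b = p ^ 2 c`, where `c` is a rational number whose
denominator is prime to `p`. -/
def Cong (p : ℕ) (a b : ℚ) : Prop := ∃ c : ℚ, a - b = (p : ℚ) ^ 2 * c ∧ c.den.Coprime p

/-- The four congruences for all primes `p ≠ 2, 5`; also, `q p` is an integer. -/
theorem result (p : ℕ) (hp : p.Prime) (hp2 : p ≠ 2) (hp5 : p ≠ 5) :
    (∃ m : ℤ, q p = m) ∧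
    Cong p (p * ∑ k ∈ Ico 1 p, (Nat.fib (2 * k) : ℚ) / ((k : ℚ) ^ 2 * (2 * k).choose k))
      (-(ε p) * (3 * q p / 2 + 5 * p * q p ^ 2 / 4)) ∧
    Cong p (p * ∑ k ∈ Ico 1 p, (L (2 * k) : ℚ) / ((k : ℚ) ^ 2 * (2 * k).choose k))
      (-(5 * q p / 2) - 15 * p * q p ^ 2 / 4) ∧
    Cong p (∑ k ∈ range ((p - 1) / 2), ((2 * k).choose k : ℚ) * Nat.fib (2 * k + 1) / ((2 * k + 1) * 16 ^ k))
      ((-1) ^ ((p + 1) / 2) * ε p * (q p / 2 + 5 * p * q p ^ 2 / 8)) ∧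
    Cong p (∑ k ∈ range ((p - 1) / 2), ((2 * k).choose k : ℚ) * L (2 * k + 1) / ((2 * k + 1) * 16 ^ k))
      ((-1) ^ ((p + 1) / 2) * (5 * q p / 2 + 5 * p * q p ^ 2 / 8)) := by
  haveI : Fact p.Prime := ⟨hp⟩
  have hL : ∀ n, L n = Q279.CB.lucas n ∧ L (n + 1) = Q279.CB.lucas (n + 1) := by
    intro n
    induction n with
    | zero => exact ⟨rfl, rfl⟩
    | succ n ih => exact ⟨ih.2, by rw [L, Q279.CB.lucas, ih.1, ih.2]⟩
  have hC : ∀ a b : ℚ, Q279.BA.D p 2 (a - b) → Cong p a b := by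
    rintro a b ⟨x, y, hy, h⟩
    have hy0 := Q279.BA.ne_zero_of_not_dvd hy
    refine ⟨(x : ℚ) / (y : ℚ), ?_, ?_⟩
    · field_simp
      linarith
    · have h1 : ((x : ℚ) / (y : ℚ)).den ∣ y := by
        have := Rat.den_dvd x (y : ℤ)
        push_cast at this
        exact_mod_cast this
      exact Nat.Coprime.coprime_dvd_left h1 ((Nat.Prime.coprime_iff_not_dvd hp).2 hy).symm
  obtain ⟨h1, h2, h3, h4⟩ := Q279.CB.main (p := p) hp2 hp5 (q p) rfl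
  have h5 : ¬ 5 ∣ p := by
    intro h
    exact hp5 ((Nat.prime_dvd_prime_iff_eq Nat.prime_five hp).1 h).symm
  obtain ⟨n, hn⟩ := hp.odd_of_ne_two hp2
  obtain ⟨a, f, z, _, _, hf, ⟨g, hg⟩, _⟩ := Q279.CB.arith (p := p) hn h5
  refine ⟨⟨g, ?_⟩, ?_, ?_, ?_, ?_⟩
  · have hp0 : (p : ℚ) ≠ 0 := by exact_mod_cast hp.ne_zero
    have e : (Nat.fib ((p : ℤ) - ε p).toNat : ℤ) = p * g := by rw [← hg, ← hf]; rfl
    have e' : (Nat.fib ((p : ℤ) - ε p).toNat : ℚ) = p * g := by exact_mod_cast e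
    unfold q
    rw [e']
    field_simp
  · refine hC _ _ ?_
    have e : -(ε p : ℚ) * (3 * q p / 2 + 5 * p * q p ^ 2 / 4)
      = -((Q279.CB.eps p : ℚ) * (3 * q p / 2 + 5 * p * q p ^ 2 / 4)) := by
      rw [neg_mul]; rfl
    rw [e]
    exact h1
  · refine hC _ _ ?_
    simp only [fun n => (hL n).1]
    exact h2
  · exact hC _ _ h3
  · refine hC _ _ ?_
    simp only [fun n => (hL n).1]
    exact h4

end Pool.Agent.Results.MP_0a65fc_nt.FourCongruences
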